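import Pool.Agent.Lib.MP_524519_ag.DU5.PC.Iface

/-! # DU5, chapter PC, module PCM: the plane curve theorem -/

set_option autoImplicit false

namespace Pool.Agent.DU5.PC

open Polynomial

namespace PCM

section basic

variable {K : Type} [Field K]

theorem incl_C (a : PowerSeries K) :
    incl K (C a) = PowerSeries.toMvPowerSeries (R := K) (0 : Fin 2) a := by
  unfold incl
  simp

/-- The inclusion as a homomorphism of algebras. -/
noncomputable def inclA (K : Type) [Field K] : (PowerSeries K)[X] →ₐ[K] R2 K :=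
  { incl K with
    commutes' := by
      intro c
      show incl K (algebraMap K ((PowerSeries K)[X]) c) = _
      rw [IsScalarTower.algebraMap_apply K (PowerSeries K) ((PowerSeries K)[X]),
        Polynomial.algebraMap_apply, Algebra.algebraMap_self_apply, incl_C]
      exact (PowerSeries.toMvPowerSeries (R := K) (0 : Fin 2)).commutes c }

theorem inclA_apply (g : (PowerSeries K)[X]) : inclA K g = incl K g := rfl

theorem rootExp_ne (d : ℕ) : rootExp d ≠ 0 := by
  unfold rootExp
  exact Finset.prod_ne_zero_iff.2 fun i _ => Nat.factorial_ne_zero _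

theorem rootExp_cast {d : ℕ} (h : Good K d) : ((rootExp d : ℕ) : K) ≠ 0 := by
  unfold rootExp
  rw [Nat.cast_prod]
  refine Finset.prod_ne_zero_iff.2 fun i hi => ?_
  rw [Finset.mem_range] at hi
  obtain ⟨c, hc⟩ := Nat.factorial_dvd_factorial (show i + 1 ≤ d by omega)
  intro h0
  apply h.fac
  rw [hc, Nat.cast_mul, h0, zero_mul]

end basic

section ideals

variable {K : Type} [Field K]

/-- if every element is congruent to a polynomial then the lengths agree -/
theorem length_comap (J : Ideal (R2 K)) (hs : ∀ g : R2 K, ∃ r : (PowerSeries K)[X],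
    g - incl K r ∈ J) :
    Module.length K ((PowerSeries K)[X] ⧸ J.comap (incl K)) = Module.length K (R2 K ⧸ J) := by
  have hle : J.comap (incl K) ≤ J.comap (inclA K) := le_refl _
  have hinj : Function.Injective (Ideal.quotientMapₐ J (inclA K) hle) := by
    apply Ideal.quotientMap_injective' (f := (inclA K : (PowerSeries K)[X] →+* R2 K)) (H := hle)
    exact le_refl _
  have hsurj : Function.Surjective (Ideal.quotientMapₐ J (inclA K) hle) := by
    intro z
    obtain ⟨g, rfl⟩ := Ideal.Quotient.mk_surjective z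
    obtain ⟨r, hr⟩ := hs g
    refine ⟨Ideal.Quotient.mk _ r, ?_⟩
    show Ideal.Quotient.mk J (incl K r) = Ideal.Quotient.mk J g
    exact ((Ideal.Quotient.mk_eq_mk_iff_sub_mem g (incl K r)).2 hr).symm
  exact (LinearEquiv.ofBijective (Ideal.quotientMapₐ J (inclA K) hle).toLinearMap
    ⟨hinj, hsurj⟩).length_eq

/-- a surjection of quotients -/
theorem length_le_of_le (J : Ideal (R2 K)) (I : Ideal (PowerSeries K)[X])
    (hI : I ≤ J.comap (incl K)) (hs : ∀ g : R2 K, ∃ r : (PowerSeries K)[X],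
    g - incl K r ∈ J) :
    Module.length K (R2 K ⧸ J) ≤ Module.length K ((PowerSeries K)[X] ⧸ I) := by
  have hle : I ≤ J.comap (inclA K) := hI
  apply Module.length_le_of_surjective (Ideal.quotientMapₐ J (inclA K) hle).toLinearMap
  intro z
  obtain ⟨g, rfl⟩ := Ideal.Quotient.mk_surjective z
  obtain ⟨r, hr⟩ := hs g
  refine ⟨Ideal.Quotient.mk _ r, ?_⟩
  show Ideal.Quotient.mk J (incl K r) = Ideal.Quotient.mk J g
  exact ((Ideal.Quotient.mk_eq_mk_iff_sub_mem g (incl K r)).2 hr).symm

end ideals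

end PCM

open PCM in
theorem pcm (hNP : NpStatement) (hPCP : PcpStatement) (hWEI : WeiStatement)
    (hEVI : EviStatement) (hORD : OrdStatement) (hFNL : FnlStatement) : PcStatement := by
  intro K _ d hd hgood F hreg
  obtain ⟨P, u, hu, hPm, hPd, hinc, hPc, hdiv⟩ := hWEI K d F hd hreg
  obtain ⟨hev1, hev2, hev3⟩ := hEVI K
  obtain ⟨n, hn⟩ : ∃ n, n = rootExp d := ⟨_, rfl⟩
  have hn0 : n ≠ 0 := by rw [hn]; exact rootExp_ne d
  have hnK : (n : K) ≠ 0 := by rw [hn]; exact rootExp_cast hgood
  obtain ⟨η, hη⟩ := hNP K d hgood P hPm hPd n hn0 (by rw [hn])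
  have hroot : ∀ i, pev n hn0 (η i) P = 0 := by
    intro i
    unfold pev
    rw [hη, eval_prod]
    exact Finset.prod_eq_zero (Finset.mem_univ i) (by simp)
  have hXn : ∀ i, PowerSeries.X ^ n ∣ η i := fun i =>
    hORD K d P hPm hPd hPc n hn0 (η i) (hroot i)
  have hc : ∀ i, PowerSeries.constantCoeff (η i) = 0 := by
    intro i
    obtain ⟨b, hb⟩ := hXn i
    rw [hb, map_mul, map_pow, PowerSeries.constantCoeff_X, zero_pow hn0, zero_mul]
  -- the evaluation is a ring homomorphism
  have hmul : ∀ i (g h : R2 K), ev n (η i) (g * h) = ev n (η i) g * ev n (η i) h :=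
    fun i g h => (hev3 n hn0 (η i) (hc i) g h).1
  have hadd : ∀ i (g h : R2 K), ev n (η i) (g + h) = ev n (η i) g + ev n (η i) h :=
    fun i g h => (hev3 n hn0 (η i) (hc i) g h).2
  have hone : ∀ i, ev n (η i) (1 : R2 K) = 1 := by
    intro i
    have h1 := hev1 n hn0 (η i) (hc i) 1
    rw [map_one] at h1
    rw [h1]
    unfold pev
    simp
  obtain ⟨v, hv⟩ := hu.exists_right_inv
  have huv : ∀ i, ev n (η i) u * ev n (η i) v = 1 := by
    intro i
    rw [← hmul, hv, hone]
  have huu : ∀ i, IsUnit (ev n (η i) u) := fun i => IsUnit.of_mul_eq_one _ (huv i)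
  have hF0 : ∀ i, ev n (η i) F = 0 := by
    intro i
    have h1 := hev1 n hn0 (η i) (hc i) P
    rw [hroot i, hinc, hmul] at h1
    exact (huu i).mul_right_eq_zero.1 h1
  -- the derivative
  have hder : incl K (derivative P) = u * MvPowerSeries.pderiv K 1 F +
      F * MvPowerSeries.pderiv K 1 u := by
    rw [← hev2, hinc, Derivation.leibniz, smul_eq_mul, smul_eq_mul]
  have hpd : ∀ i, pev n hn0 (η i) (derivative P) =
      ev n (η i) u * ev n (η i) (MvPowerSeries.pderiv K 1 F) := by
    intro i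
    rw [← hev1 n hn0 (η i) (hc i), hder, hadd, hmul, hmul, hF0 i, zero_mul, add_zero]
  -- division by `F`
  have hs : ∀ J : Ideal (R2 K), F ∈ J → ∀ g : R2 K, ∃ r : (PowerSeries K)[X],
      g - incl K r ∈ J := by
    intro J hJ g
    obtain ⟨q, r, hqr⟩ := hdiv g
    refine ⟨r, ?_⟩
    rw [hqr, add_sub_cancel_right]
    exact J.mul_mem_left _ hJ
  refine ⟨n, hn0, hnK, η, hXn, hF0, fun hFy => ?_⟩
  have hder0 : ∀ i, pev n hn0 (η i) (derivative P) ≠ 0 := by
    intro i
    rw [hpd i]
    exact mul_ne_zero (huu i).ne_zero (hFy i)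
  have hle : Module.length K (R2 K ⧸ Ideal.span {F, MvPowerSeries.pderiv K 1 F}) ≤
      Module.length K ((PowerSeries K)[X] ⧸ Ideal.span {P, derivative P}) := by
    have hFm : F ∈ Ideal.span {F, MvPowerSeries.pderiv K 1 F} :=
      Ideal.subset_span (by simp)
    have hFm' : MvPowerSeries.pderiv K 1 F ∈ Ideal.span {F, MvPowerSeries.pderiv K 1 F} :=
      Ideal.subset_span (by simp)
    apply length_le_of_le
    · rw [Ideal.span_le]
      intro g hg
      simp only [Set.mem_insert_iff, Set.mem_singleton_iff] at hg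
      rw [SetLike.mem_coe, Ideal.mem_comap]
      rcases hg with rfl | rfl
      · rw [hinc]
        exact Ideal.mul_mem_left _ _ hFm
      · rw [hder]
        exact Ideal.add_mem _ (Ideal.mul_mem_left _ _ hFm') (Ideal.mul_mem_right _ _ hFm)
    · exact hs _ hFm
  refine ⟨fun h => ?_, fun T T' I I' hI hI' => ?_⟩
  · rw [h, top_le_iff] at hle
    exact (hFNL K P d hPm hPd n hn0 η hη (derivative P) hder0).2 hle
  have hJF : ∀ I : Ideal (R2 K), F ∈ I ⊔ Ideal.span {F} := fun I =>
    Ideal.mem_sup_right (Ideal.mem_span_singleton_self F)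
  have hPI : ∀ I : Ideal (R2 K), P ∈ (I ⊔ Ideal.span {F}).comap (incl K) := by
    intro I
    rw [Ideal.mem_comap, hinc]
    exact Ideal.mul_mem_left _ _ (hJF I)
  have hmod : ∀ (I : Ideal (R2 K)) (T : ℕ),
      (∀ g ∈ I, ∀ i, PowerSeries.X ^ (T + 1) * ev n (η i) (MvPowerSeries.pderiv K 1 F) ∣
        PowerSeries.X ^ (2 * n) * ev n (η i) g) →
      ∀ g ∈ (I ⊔ Ideal.span {F}).comap (incl K), ∀ i,
        PowerSeries.X ^ (T + 1) * pev n hn0 (η i) (derivative P) ∣
          PowerSeries.X ^ (2 * n) * pev n hn0 (η i) g := by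
    intro I T hI g hg i
    rw [Ideal.mem_comap, Submodule.mem_sup] at hg
    obtain ⟨a, ha, b, hb, hab⟩ := hg
    rw [Ideal.mem_span_singleton'] at hb
    obtain ⟨c, rfl⟩ := hb
    have h1 : pev n hn0 (η i) g = ev n (η i) a := by
      rw [← hev1 n hn0 (η i) (hc i), ← hab, hadd, hmul, hF0 i, mul_zero, add_zero]
    rw [h1, hpd i, mul_left_comm]
    exact ((huu i).mul_left_dvd).2 (hI a ha i)
  obtain ⟨h3, h4⟩ := hPCP K P d hd hPm hPd n hn0 η hη hder0 T T' _ _ (hPI I) (hPI I')
    (hmod I T hI) (hmod I' T' hI')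
  rw [length_comap _ (hs _ (hJF I)), length_comap _ (hs _ (hJF I'))] at h3 h4
  exact ⟨fun h => hle.trans (h3 h), fun h => (add_le_add hle (le_refl _)).trans (h4 h)⟩

end Pool.Agent.DU5.PC
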